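import Pool.Agent.TH691.VC.Final

/-!
# A maximum clique of a visibility graph is found in polynomial time from the graph alone

`Vis124.IsSimplePolygon v P`: `P` is the closed region bounded by the simple closed polygonal curve
with the vertices `v 0, …, v (n - 1)`.  `Vis124.visGraph v P`: its visibility graph.
`NPC.PolyTime f`: the function `f` on bit strings is computed by a Turing machine in polynomial time
(Mathlib's `Turing.TM2ComputableInPolyTime`).  `NPC.bits`: the standard code of structured data as a
bit string.

The algorithm: for all cliques `T` with at most eight vertices let `comps T` be the components of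
the complement of the graph induced on the common neighbourhood of `T`.  For all these sets `C` a
clique `val C ⊆ C` is improved in `n + 2` rounds: it is replaced by the best of the cliques
`(T ∩ C) ∪ ⋃ {val D : D ∈ comps T, D ⊆ C}`.
-/

namespace Pool.Agent.Results.MP_df76ee_lc.PolyTimeMaxClique

open Vis124 Pool.Agent.NPC TH691.VC

/-- There is a deterministic polynomial-time algorithm `f` (a polynomial-time computable function on
bit strings) which, given the adjacency matrix of a graph that is isomorphic to the visibility graph
of a simple polygon (and nothing else), outputs a maximum clique of the graph (as the increasing list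
of its vertices). -/
theorem result : ∃ f : List Bool → List Bool, PolyTime f ∧
    ∀ (n : ℕ) (G : SimpleGraph (Fin n)) [DecidableRel G.Adj], IsVisibilityGraph G →
      ∃ K : Finset (Fin n), G.IsMaximumClique K ∧
        f (bits (adjMatrix G)) = bits ((K.sort (· ≤ ·)).map (fun i : Fin n => (i : ℕ))) := by
  obtain ⟨f, hf, hfM⟩ := exists_polyTime
  refine ⟨f, hf, fun n G _ h => ?_⟩
  obtain ⟨K, hK, hKa⟩ := correct_boundary G (isBoundary_of_vis h)
  exact ⟨K, hK, by rw [hfM, hKa]⟩

end Pool.Agent.Results.MP_df76ee_lc.PolyTimeMaxClique
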